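import Pool.Agent.helper60.RF.SpecB

/-!
# Row rf:CTI: integral elements of the quadratic field generated by the root of 5
-/

set_option autoImplicit false

namespace Pool.Agent.RF

open NumberField

theorem CTI_rat {F : Type} [Field F] [NumberField F] {q : ℚ} (h : IsIntegral ℤ (q : F)) : ∃ t : ℤ, (t : ℚ) = q := by
  have h1 : IsIntegral ℤ (algebraMap ℚ F q) := by
    rw [eq_ratCast]
    exact h
  have h2 : IsIntegral ℤ q := (isIntegral_algebraMap_iff (algebraMap ℚ F).injective).1 h1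
  obtain ⟨t, ht⟩ := IsIntegrallyClosed.isIntegral_iff.1 h2
  exact ⟨t, by simpa using ht⟩

theorem CTI_sq {q : ℚ} {n : ℤ} (h : q ^ 2 = (n : ℚ)) : ∃ t : ℤ, (t : ℚ) = q := by
  have h1 : IsIntegral ℤ (q ^ 2) := by
    rw [h]
    exact isIntegral_algebraMap (R := ℤ) (x := n)
  have h2 : IsIntegral ℤ q := IsIntegral.of_pow (n := 2) two_pos h1
  obtain ⟨t, ht⟩ := IsIntegrallyClosed.isIntegral_iff.1 h2
  exact ⟨t, by simpa using ht⟩

theorem CTI : CTI_stmt := by
  intro D F _ _ s r w _ hM a b hu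
  have hs : s ((a : F) + b * r) = (a : F) - b * r := by
    rw [map_add, map_mul, hM.sr, map_ratCast, map_ratCast]
    ring
  have hu1 : IsIntegral ℤ ((a : F) - b * r) := by
    rw [← hs]
    exact map_isIntegral_int s hu
  have e1 : ((2 * a : ℚ) : F) = ((a : F) + b * r) + ((a : F) - b * r) := by
    push_cast
    ring
  have e2 : ((a ^ 2 - 5 * b ^ 2 : ℚ) : F) = ((a : F) + b * r) * ((a : F) - b * r) := by
    push_cast
    linear_combination (b : F) ^ 2 * hM.r2
  obtain ⟨t, ht⟩ : ∃ t : ℤ, (t : ℚ) = 2 * a := CTI_rat (F := F) (by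
    rw [e1]
    exact hu.add hu1)
  obtain ⟨m, hm⟩ : ∃ m : ℤ, (m : ℚ) = a ^ 2 - 5 * b ^ 2 := CTI_rat (F := F) (by
    rw [e2]
    exact hu.mul hu1)
  obtain ⟨j, hj⟩ : ∃ j : ℤ, (j : ℚ) = 10 * b := CTI_sq (n := 5 * (t ^ 2 - 4 * m)) (by
    push_cast
    rw [ht, hm]
    ring)
  have hj2 : j ^ 2 = 5 * (t ^ 2 - 4 * m) := by
    have h : (j : ℚ) ^ 2 = 5 * ((t : ℚ) ^ 2 - 4 * m) := by
      rw [hj, ht, hm]
      ring
    exact_mod_cast h
  have h5 : (5 : ℤ) ∣ j := Int.Prime.dvd_pow' (p := 5) (by norm_num) (n := j) (k := 2) ⟨t ^ 2 - 4 * m, by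
    rw [hj2]
    norm_num⟩
  obtain ⟨v, hv⟩ := h5
  have hb : (v : ℚ) = 2 * b := by
    have h : (j : ℚ) = 5 * v := by
      rw [hv]
      push_cast
      ring
    linarith
  have hv2 : t ^ 2 - 5 * v ^ 2 = 4 * m := by
    have h : 25 * v ^ 2 = 5 * (t ^ 2 - 4 * m) := by
      rw [← hj2, hv]
      ring
    linarith
  have hev : Even (t - v) := by
    have h : Even (t ^ 2 - 5 * v ^ 2) := ⟨2 * m, by rw [hv2]; ring⟩
    rw [Int.even_sub, Int.even_pow, Int.even_mul, Int.even_pow] at h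
    rw [Int.even_sub]
    have h5 : ¬ Even (5 : ℤ) := by decide
    simpa [h5] using h
  obtain ⟨c, hc⟩ := hev
  refine ⟨⟨c, v⟩, ?_⟩
  have ha' : (a : F) = (t : F) / 2 := by
    have h : a = (t : ℚ) / 2 := by
      rw [ht]
      ring
    rw [h]
    push_cast
    rfl
  have hb' : (b : F) = (v : F) / 2 := by
    have h : b = (v : ℚ) / 2 := by
      rw [hb]
      ring
    rw [h]
    push_cast
    rfl
  have hc' : (t : F) - v = c + c := by exact_mod_cast hc
  rw [ha', hb']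
  show (t : F) / 2 + (v : F) / 2 * r = (c : F) + (v : F) * ((1 + r) / 2)
  linear_combination hc' / 2

end Pool.Agent.RF
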