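import Pool.Agent.helper60.RF.SpecB

/-!
# Row rf:LAB: labels modulo a prime different from 5
-/

set_option autoImplicit false

namespace Pool.Agent.RF

open NumberField

/-- Labels for one field. -/
theorem LAB_field {k : Type} [Field k] (h5 : (5 : k) ≠ 0) (W : k) : ∃ lab : k × k → Option (Fin 4), ∀ x y : k × k,
    x.2 * (5 * x.1 ^ 4 + 10 * x.1 ^ 2 * x.2 ^ 2 * W + x.2 ^ 4 * W ^ 2) = 0 →
    y.2 * (5 * y.1 ^ 4 + 10 * y.1 ^ 2 * y.2 ^ 2 * W + y.2 ^ 4 * W ^ 2) = 0 →
    lab x = lab y → x.1 * y.2 = y.1 * x.2 := by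
  classical
  let H : Polynomial k := Polynomial.C 5 * Polynomial.X ^ 4 + Polynomial.C (10 * W) * Polynomial.X ^ 2 + Polynomial.C (W ^ 2)
  have hdeg : H.natDegree ≤ 4 := by
    show (Polynomial.C 5 * Polynomial.X ^ 4 + Polynomial.C (10 * W) * Polynomial.X ^ 2 + Polynomial.C (W ^ 2)).natDegree ≤ 4
    compute_degree
  have hH0 : H ≠ 0 := by
    intro h
    have h1 : H.coeff 4 = 0 := by rw [h, Polynomial.coeff_zero]
    have h2 : H.coeff 4 = 5 := by
      show (Polynomial.C 5 * Polynomial.X ^ 4 + Polynomial.C (10 * W) * Polynomial.X ^ 2 + Polynomial.C (W ^ 2)).coeff 4 = 5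
      rw [Polynomial.coeff_add, Polynomial.coeff_add, Polynomial.coeff_C_mul, Polynomial.coeff_C_mul,
        Polynomial.coeff_X_pow, Polynomial.coeff_X_pow, Polynomial.coeff_C, if_pos rfl, if_neg (by decide), if_neg (by decide)]
      ring
    exact h5 (h2.symm.trans h1)
  have hcard : Fintype.card H.roots.toFinset ≤ Fintype.card (Fin 4) := by
    rw [Fintype.card_coe, Fintype.card_fin]
    exact (Multiset.toFinset_card_le _).trans ((Polynomial.card_roots' H).trans hdeg)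
  obtain ⟨em⟩ := Function.Embedding.nonempty_of_card_le hcard
  refine ⟨fun x => if x.2 = 0 then none else some (if h : x.1 / x.2 ∈ H.roots.toFinset then em ⟨x.1 / x.2, h⟩ else 0), ?_⟩
  have key : ∀ x : k × k, x.2 ≠ 0 →
      x.2 * (5 * x.1 ^ 4 + 10 * x.1 ^ 2 * x.2 ^ 2 * W + x.2 ^ 4 * W ^ 2) = 0 → x.1 / x.2 ∈ H.roots.toFinset := by
    intro x hx h
    have h1 := (mul_eq_zero.1 h).resolve_left hx
    rw [Multiset.mem_toFinset, Polynomial.mem_roots hH0, Polynomial.IsRoot.def]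
    show (Polynomial.C 5 * Polynomial.X ^ 4 + Polynomial.C (10 * W) * Polynomial.X ^ 2 + Polynomial.C (W ^ 2)).eval (x.1 / x.2) = 0
    simp only [Polynomial.eval_add, Polynomial.eval_mul, Polynomial.eval_C, Polynomial.eval_pow, Polynomial.eval_X]
    have h2 : 5 * (x.1 / x.2) ^ 4 + 10 * W * (x.1 / x.2) ^ 2 + W ^ 2 =
        (5 * x.1 ^ 4 + 10 * x.1 ^ 2 * x.2 ^ 2 * W + x.2 ^ 4 * W ^ 2) / x.2 ^ 4 := by
      field_simp
    rw [h2, h1, zero_div]
  intro x y hx hy hl
  by_cases hx2 : x.2 = 0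
  · by_cases hy2 : y.2 = 0
    · rw [hx2, hy2, mul_zero, mul_zero]
    · simp [hx2, hy2] at hl
  · by_cases hy2 : y.2 = 0
    · simp [hx2, hy2] at hl
    · have kx := key x hx2 hx
      have ky := key y hy2 hy
      simp only [hx2, hy2, if_false, kx, ky, dif_pos, Option.some.injEq] at hl
      have h3 := em.injective hl
      have h4 : x.1 / x.2 = y.1 / y.2 := congrArg Subtype.val h3
      rwa [div_eq_div_iff hx2 hy2] at h4

/-- The ring homomorphism given by a root. -/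
def LAB_hom {k : Type} [Field k] (c : k) (hc : c ^ 2 = 1 + c) : OO →+* k where
  toFun z := (z.re : k) + (z.im : k) * c
  map_one' := by
    show (((1 : OO).re : ℤ) : k) + (((1 : OO).im : ℤ) : k) * c = 1
    rw [QuadraticAlgebra.re_one, QuadraticAlgebra.im_one]
    push_cast
    ring
  map_mul' z w := by
    rw [QuadraticAlgebra.re_mul, QuadraticAlgebra.im_mul]
    push_cast
    linear_combination (-(z.im : k) * (w.im : k)) * hc
  map_zero' := by
    rw [QuadraticAlgebra.re_zero, QuadraticAlgebra.im_zero]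
    push_cast
    ring
  map_add' z w := by
    rw [QuadraticAlgebra.re_add, QuadraticAlgebra.im_add]
    push_cast
    ring

theorem LAB : LAB_stmt := by
  intro l W hl hl5
  have : Fact l.Prime := ⟨hl⟩
  let k : Type := AlgebraicClosure (ZMod l)
  have : CharP k l := inferInstanceAs (CharP (AlgebraicClosure (ZMod l)) l)
  have h5 : (5 : k) ≠ 0 := by
    intro h
    have h1 : ((5 : ℕ) : k) = 0 := by
      push_cast
      exact h
    exact hl5 ((Nat.prime_dvd_prime_iff_eq hl Nat.prime_five).1 ((CharP.cast_eq_zero_iff k l 5).1 h1))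
  obtain ⟨c, hc⟩ : ∃ c : k, c ^ 2 = 1 + c := by
    have hd : (Polynomial.X ^ 2 - Polynomial.X - 1 : Polynomial k).degree ≠ 0 := by
      have h : (Polynomial.X ^ 2 - Polynomial.X - 1 : Polynomial k).degree = 2 := by compute_degree!
      rw [h]
      decide
    obtain ⟨c, hc⟩ := IsAlgClosed.exists_root _ hd
    refine ⟨c, ?_⟩
    rw [Polynomial.IsRoot.def] at hc
    simp only [Polynomial.eval_sub, Polynomial.eval_pow, Polynomial.eval_X, Polynomial.eval_one] at hc
    linear_combination hc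
  have hc' : (1 - c) ^ 2 = 1 + (1 - c) := by linear_combination hc
  let f₁ : OO →+* k := LAB_hom c hc
  let f₂ : OO →+* k := LAB_hom (1 - c) hc'
  obtain ⟨lab₁, h₁⟩ := LAB_field h5 (f₁ W)
  obtain ⟨lab₂, h₂⟩ := LAB_field h5 (f₂ W)
  have hcard : Fintype.card (Option (Fin 4) × Option (Fin 4)) ≤ Fintype.card (Fin 36) := by
    simp
  obtain ⟨em⟩ := Function.Embedding.nonempty_of_card_le hcard
  refine ⟨fun x => em (lab₁ (f₁ x.1, f₁ x.2), lab₂ (f₂ x.1, f₂ x.2)), ?_⟩
  intro x y hx hy hxy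
  have hlab := em.injective hxy
  have hl1 := congrArg Prod.fst hlab
  have hl2 := congrArg Prod.snd hlab
  have hz : ∀ f : OO →+* k, ∀ z : OO, (l : OO) ∣ z → f z = 0 := by
    rintro f z ⟨w, rfl⟩
    rw [map_mul, map_natCast, (CharP.cast_eq_zero_iff k l l).2 dvd_rfl, zero_mul]
  have hex : ∀ f : OO →+* k, ∀ x : OO × OO, (l : OO) ∣ x.2 * (5 * x.1 ^ 4 + 10 * x.1 ^ 2 * x.2 ^ 2 * W + x.2 ^ 4 * W ^ 2) →
      f x.2 * (5 * f x.1 ^ 4 + 10 * f x.1 ^ 2 * f x.2 ^ 2 * f W + f x.2 ^ 4 * f W ^ 2) = 0 := by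
    intro f x hx
    have h := hz f _ hx
    simpa only [map_mul, map_add, map_pow, map_ofNat] using h
  have e1 := h₁ (f₁ x.1, f₁ x.2) (f₁ y.1, f₁ y.2) (hex f₁ x hx) (hex f₁ y hy) hl1
  have e2 := h₂ (f₂ x.1, f₂ x.2) (f₂ y.1, f₂ y.2) (hex f₂ x hx) (hex f₂ y hy) hl2
  have z1 : f₁ (x.1 * y.2 - y.1 * x.2) = 0 := by
    rw [map_sub, map_mul, map_mul]
    exact sub_eq_zero.2 e1
  have z2 : f₂ (x.1 * y.2 - y.1 * x.2) = 0 := by
    rw [map_sub, map_mul, map_mul]
    exact sub_eq_zero.2 e2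
  generalize x.1 * y.2 - y.1 * x.2 = z at z1 z2
  have z1' : (z.re : k) + (z.im : k) * c = 0 := z1
  have z2' : (z.re : k) + (z.im : k) * (1 - c) = 0 := z2
  have hcc : (2 * c - 1) ≠ 0 := by
    intro h
    apply h5
    have h2 : (2 * c - 1) ^ 2 = 5 := by linear_combination 4 * hc
    rw [← h2, h]
    ring
  have hi : (z.im : k) = 0 := by
    have h : (z.im : k) * (2 * c - 1) = 0 := by linear_combination z1' - z2'
    exact (mul_eq_zero.1 h).resolve_right hcc
  have hr : (z.re : k) = 0 := by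
    rw [hi] at z1'
    simpa using z1'
  obtain ⟨u, hu⟩ := (CharP.intCast_eq_zero_iff k l z.re).1 hr
  obtain ⟨v, hv⟩ := (CharP.intCast_eq_zero_iff k l z.im).1 hi
  refine ⟨⟨u, v⟩, ?_⟩
  ext
  · rw [QuadraticAlgebra.re_mul, QuadraticAlgebra.re_natCast, QuadraticAlgebra.im_natCast, hu]
    simp
  · rw [QuadraticAlgebra.im_mul, QuadraticAlgebra.re_natCast, QuadraticAlgebra.im_natCast, hv]
    simp

end Pool.Agent.RF
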