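import Pool.Agent.helper13.RF.SpecU

set_option autoImplicit false

/-! Row rf:UVR: the relations of the valuations of `u` and `θ`. -/

namespace Pool.Agent.RF

open NumberField

theorem UVR_neg {F : Type} [Field F] [NumberField F] (P : Ideal (𝓞 F)) (x : 𝓞 F) : vv P (-x) = vv P x := by
  unfold vv
  rw [Ideal.span_singleton_neg]

theorem UVR_star2 (z : OO) : star (2 * z) = 2 * star z := by
  rw [star_mul, mul_comm]
  rfl

theorem UVR_star25 (z : OO) : star (25 * z) = 25 * star z := by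
  rw [star_mul, mul_comm]
  rfl

theorem UVR_ph : ph * (ph - 1) = 1 := by
  ext <;> rfl

theorem UVR (h1 : UUE_stmt) (h2 : VVM_stmt) (h3 : TVA_stmt) : UVR_stmt := by
  intro D₀ F _ _ C p f hp hD P hP hP0 c0 c1 c2 c3 x0 x1 x2 x3 y0 y1 hc2 hc3 hc0 hc1 hx0 hx1 hx2 hx3 hy0 hy1
  subst hc0 hc1 hc2 hc3 hx0 hx1 hx2 hx3 hy0 hy1
  obtain ⟨-, -, hN, -, hT5, -, hS, hDf, -, hw, hw0, hf0, ht0, hu0, hn0, hn1, hk0, hσ4, hinj⟩ := h1 D₀ F C p f hp hD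
  obtain ⟨hV1, -, -⟩ := h2 F P hP hP0
  obtain ⟨-, hW, -⟩ := h3 F P hP hP0
  set t := th C f p with ht
  set u := uu C f p with hu
  have hσ0 : ∀ x : 𝓞 F, x ≠ 0 → C.σ x ≠ 0 := fun x hx h => hx (by
    rw [← map_zero C.σ] at h
    exact C.σ.injective h)
  have ht1 : C.σ t ≠ 0 := hσ0 _ ht0
  have ht2 : C.σ (C.σ t) ≠ 0 := hσ0 _ ht1
  have ht3 : C.σ (C.σ (C.σ t)) ≠ 0 := hσ0 _ ht2
  have hu1 : C.σ u ≠ 0 := hσ0 _ hu0
  have hu2 : C.σ (C.σ u) ≠ 0 := hσ0 _ hu1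
  have hu3 : C.σ (C.σ (C.σ u)) ≠ 0 := hσ0 _ hu2
  have hpow : ∀ (x : 𝓞 F) (n : ℕ), x ≠ 0 → vv P (x ^ (n + 1)) = (n + 1) * vv P x := by
    intro x n hx
    induction n with
    | zero => simp
    | succ n ih => rw [pow_succ, hV1 _ _ (pow_ne_zero _ hx) hx, ih]; ring
  have h5 : ∀ x : 𝓞 F, x ≠ 0 → vv P (x ^ 5) = 5 * vv P x := fun x hx => hpow x 4 hx
  have h2' : ∀ x : 𝓞 F, x ≠ 0 → vv P (x ^ 2) = 2 * vv P x := fun x hx => hpow x 1 hx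
  -- relations for `u τu`
  have hR1 : vv P (C.σ (C.σ u)) + vv P u = 5 * vv P (C.ι p.n) := by
    rw [← h5 _ hn0, ← hN, hV1 _ _ hu0 hu2, add_comm]
  have hN' : C.σ u * C.σ (C.σ (C.σ u)) = C.ι (star p.n) ^ 5 := by
    rw [← map_mul, hN, map_pow, C.σι]
  have hR2 : vv P (C.σ (C.σ (C.σ u))) + vv P (C.σ u) = 5 * vv P (C.ι (star p.n)) := by
    rw [← h5 _ hn1, ← hN', hV1 _ _ hu1 hu3, add_comm]
  -- the fifth powers
  have hT5a : C.σ t ^ 5 = C.σ u ^ 2 * u := by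
    rw [← map_pow, hT5, map_mul, map_pow, hσ4]
  have hT5b : C.σ (C.σ t) ^ 5 = C.σ (C.σ u) ^ 2 * C.σ u := by
    rw [← map_pow, hT5a, map_mul, map_pow]
  have hT5c : C.σ (C.σ (C.σ t)) ^ 5 = C.σ (C.σ (C.σ u)) ^ 2 * C.σ (C.σ u) := by
    rw [← map_pow, hT5b, map_mul, map_pow]
  have hR3 : 5 * vv P t = 2 * vv P u + vv P (C.σ (C.σ (C.σ u))) := by
    rw [← h5 _ ht0, hT5, hV1 _ _ (pow_ne_zero _ hu0) hu3, h2' _ hu0]
  have hR4 : 5 * vv P (C.σ t) = 2 * vv P (C.σ u) + vv P u := by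
    rw [← h5 _ ht1, hT5a, hV1 _ _ (pow_ne_zero _ hu1) hu0, h2' _ hu1]
  have hR5 : 5 * vv P (C.σ (C.σ t)) = 2 * vv P (C.σ (C.σ u)) + vv P (C.σ u) := by
    rw [← h5 _ ht2, hT5b, hV1 _ _ (pow_ne_zero _ hu2) hu1, h2' _ hu2]
  have hR6 : 5 * vv P (C.σ (C.σ (C.σ t))) = 2 * vv P (C.σ (C.σ (C.σ u))) + vv P (C.σ (C.σ u)) := by
    rw [← h5 _ ht3, hT5c, hV1 _ _ (pow_ne_zero _ hu3) hu2, h2' _ hu3]
  -- the differences
  have hfw : C.ι (2 * (25 * p.k)) * (f : 𝓞 F) ≠ 0 := mul_ne_zero hk0 hf0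
  have hR7 : min (vv P t) (vv P (C.σ (C.σ t))) ≤ vv P (C.ι (2 * (25 * p.k))) + vv P (f : 𝓞 F) + vv P C.w := by
    rw [← hV1 _ _ hk0 hf0, ← hV1 _ _ hfw hw0, ← hDf, ← UVR_neg P (C.σ (C.σ t)), sub_eq_add_neg]
    refine hW _ _ ht0 (neg_ne_zero.2 ht2) ?_
    rw [← sub_eq_add_neg, hDf]
    exact mul_ne_zero hfw hw0
  have hk1 : C.ι (2 * (25 * star p.k)) ≠ 0 := by
    have := hσ0 _ hk0
    rwa [C.σι, UVR_star2, UVR_star25] at this
  have hph : C.ι ph * C.ι (ph - 1) = 1 := by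
    rw [← map_mul, UVR_ph, map_one]
  have hph0 : C.ι (ph - 1) ≠ 0 := by
    intro h
    rw [h, mul_zero] at hph
    exact zero_ne_one hph
  have hph1 : C.ι ph ≠ 0 := by
    intro h
    rw [h, zero_mul] at hph
    exact zero_ne_one hph
  have hv1 : vv P (1 : 𝓞 F) = 0 := by
    have := hV1 1 1 one_ne_zero one_ne_zero
    rw [mul_one] at this
    omega
  have hvp : vv P (C.ι (ph - 1)) = 0 := by
    have := hV1 _ _ hph1 hph0
    rw [hph, hv1] at this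
    omega
  have hDf' : C.σ t - C.σ (C.σ (C.σ t)) = C.ι (2 * (25 * star p.k)) * (f : 𝓞 F) * (C.ι (ph - 1) * C.w) := by
    rw [← map_sub, hDf, map_mul, map_mul, C.σι, hw, map_natCast, UVR_star2, UVR_star25]
  have hfw1 : C.ι (2 * (25 * star p.k)) * (f : 𝓞 F) ≠ 0 := mul_ne_zero hk1 hf0
  have hpw : C.ι (ph - 1) * C.w ≠ 0 := mul_ne_zero hph0 hw0
  have hR8 : min (vv P (C.σ t)) (vv P (C.σ (C.σ (C.σ t)))) ≤
      vv P (C.ι (2 * (25 * star p.k))) + vv P (f : 𝓞 F) + vv P C.w := by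
    have e : vv P C.w = vv P (C.ι (ph - 1) * C.w) := by
      rw [hV1 _ _ hph0 hw0, hvp, zero_add]
    rw [e, ← hV1 _ _ hk1 hf0, ← hV1 _ _ hfw1 hpw, ← hDf', ← UVR_neg P (C.σ (C.σ (C.σ t))), sub_eq_add_neg]
    refine hW _ _ ht1 (neg_ne_zero.2 ht3) ?_
    rw [← sub_eq_add_neg, hDf']
    exact mul_ne_zero hfw1 hpw
  refine ⟨hR1, hR2, hR3, hR4, hR5, hR6, hR7, hR8, fun hX => ?_⟩
  have h2X : C.ι (2 * p.X) ≠ 0 := by
    intro h
    rw [← map_zero C.ι] at h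
    have h' := hinj _ _ h
    have e4 : (2 : OO).re = 2 := rfl
    have e5 : (2 : OO).im = 0 := rfl
    have r1 : 2 * p.X.re = 0 := by
      have := congrArg QuadraticAlgebra.re h'
      simpa [e4, e5] using this
    have r2 : 2 * p.X.im = 0 := by
      have := congrArg QuadraticAlgebra.im h'
      simpa [e4, e5] using this
    apply hX
    ext
    · show p.X.re = 0
      omega
    · show p.X.im = 0
      omega
  have h2X' : C.ι (2 * star p.X) ≠ 0 := by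
    have := hσ0 _ h2X
    rwa [C.σι, UVR_star2] at this
  have hS' : C.σ t + C.σ (C.σ (C.σ t)) = C.ι (2 * star p.X) := by
    rw [← map_add, hS, C.σι, UVR_star2]
  constructor
  · rw [← hS]
    refine hW _ _ ht0 ht2 ?_
    rw [hS]; exact h2X
  · rw [← hS']
    refine hW _ _ ht1 ht3 ?_
    rw [hS']; exact h2X'

end Pool.Agent.RF
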