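import Pool.Agent.helper88.RF.SpecW
import Pool.Agent.helper77.FT.P6c

/-!
# Row rf:WC2: the dual points with nonzero resultant
-/

set_option autoImplicit false

open Finset

namespace Pool.Agent.RF

theorem WC2_one : va (1 : OO) = 1 ∧ vb (1 : OO) = 1 := by
  constructor
  · unfold va
    rw [QuadraticAlgebra.re_one, QuadraticAlgebra.im_one]
    push_cast
    ring
  · unfold vb
    rw [QuadraticAlgebra.re_one, QuadraticAlgebra.im_one]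
    push_cast
    ring

theorem WC2_pow (hW : WVA_stmt) (x : OO) (n : ℕ) : va (x ^ n) = va x ^ n ∧ vb (x ^ n) = vb x ^ n := by
  induction n with
  | zero => exact ⟨by rw [pow_zero, pow_zero]; exact WC2_one.1, by rw [pow_zero, pow_zero]; exact WC2_one.2⟩
  | succ n ih => exact ⟨by rw [pow_succ, hW.1, ih.1, pow_succ], by rw [pow_succ, hW.2.1, ih.2, pow_succ]⟩

theorem WC2_tr (x : OO) : (trO x : ℝ) = va x + vb x := by
  unfold trO va vb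
  push_cast
  ring

theorem WC2_sqrt : (2 : ℝ) ≤ √5 ∧ √5 ≤ (3 : ℝ) := by
  constructor
  · rw [show (2 : ℝ) = √(2 ^ 2) by rw [Real.sqrt_sq (by norm_num)]]
    exact Real.sqrt_le_sqrt (by norm_num)
  · rw [show (3 : ℝ) = √(3 ^ 2) by rw [Real.sqrt_sq (by norm_num)]]
    exact Real.sqrt_le_sqrt (by norm_num)

theorem WC2_ph : |va ph| ≤ 2 ∧ |vb ph| ≤ 1 := by
  obtain ⟨h1, h2⟩ := WC2_sqrt
  constructor
  · unfold va ph
    rw [abs_le]
    push_cast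
    constructor <;> linarith
  · unfold vb ph
    rw [abs_le]
    push_cast
    constructor <;> linarith

theorem WC2_norm (hW : WVA_stmt) (x : OO) (Y : ℝ) (h1 : |va x| ≤ Y) (h2 : |vb x| ≤ Y) : |(x.norm : ℝ)| ≤ Y ^ 2 := by
  rw [← hW.2.2.2.2.2.1 x, abs_mul, pow_two]
  exact mul_le_mul h1 h2 (abs_nonneg _) ((abs_nonneg _).trans h1)

theorem WC2_R0 (hW : WVA_stmt) (Y : ℝ) (a z : OO) (h1 : |va a| ≤ Y) (h2 : |vb a| ≤ Y)
    (h3 : |va z| ≤ Y) (h4 : |vb z| ≤ Y) : ((R0 a z).natAbs : ℝ) ≤ 5000 * Y ^ 6 := by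
  have hY : 0 ≤ Y := (abs_nonneg _).trans h1
  have hn := WC2_norm hW z Y h3 h4
  have hm := WC2_norm hW a Y h1 h2
  have hst := hW.2.2.2.2.1 z
  have hτ : |(trO (ph ^ 3 * a * star z ^ 5) : ℝ)| ≤ 9 * Y ^ 6 := by
    rw [WC2_tr, hW.1, hW.1, hW.2.1, hW.2.1, (WC2_pow hW _ _).1, (WC2_pow hW _ _).1, (WC2_pow hW _ _).2, (WC2_pow hW _ _).2, hst.1, hst.2]
    have e1 : |va ph ^ 3 * va a * vb z ^ 5| ≤ 2 ^ 3 * Y * Y ^ 5 := by
      rw [abs_mul, abs_mul, abs_pow, abs_pow]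
      exact mul_le_mul (mul_le_mul (pow_le_pow_left₀ (abs_nonneg _) WC2_ph.1 3) h1 (abs_nonneg _) (by positivity))
        (pow_le_pow_left₀ (abs_nonneg _) h4 5) (by positivity) (by positivity)
    have e2 : |vb ph ^ 3 * vb a * va z ^ 5| ≤ 1 ^ 3 * Y * Y ^ 5 := by
      rw [abs_mul, abs_mul, abs_pow, abs_pow]
      exact mul_le_mul (mul_le_mul (pow_le_pow_left₀ (abs_nonneg _) WC2_ph.2 3) h2 (abs_nonneg _) (by positivity))
        (pow_le_pow_left₀ (abs_nonneg _) h3 5) (by positivity) (by positivity)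
    refine (abs_add_le _ _).trans ((add_le_add e1 e2).trans (le_of_eq ?_))
    ring
  generalize htr : (trO (ph ^ 3 * a * star z ^ 5) : ℤ) = τ at hτ
  have hR : ((R0 a z).natAbs : ℝ) = |(z.norm : ℝ) ^ 3 - 75 * (z.norm : ℝ) ^ 2 * a.norm - 625 * z.norm * (a.norm : ℝ) ^ 2 -
      3125 * (a.norm : ℝ) ^ 3 - 8 * (τ : ℝ)| := by
    rw [Nat.cast_natAbs, Int.cast_abs]
    unfold R0
    rw [htr]
    push_cast
    rfl
  rw [hR]
  generalize (z.norm : ℝ) = n at hn ⊢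
  generalize (a.norm : ℝ) = m at hm ⊢
  generalize (τ : ℝ) = s at hτ ⊢
  have hmon : ∀ i j : ℕ, i + j = 3 → |n ^ i * m ^ j| ≤ Y ^ 6 := by
    intro i j hij
    rw [abs_mul, abs_pow, abs_pow]
    calc |n| ^ i * |m| ^ j ≤ (Y ^ 2) ^ i * (Y ^ 2) ^ j :=
          mul_le_mul (pow_le_pow_left₀ (abs_nonneg _) hn i) (pow_le_pow_left₀ (abs_nonneg _) hm j) (by positivity) (by positivity)
      _ = Y ^ 6 := by rw [← pow_add, hij, ← pow_mul]
  have t1 := hmon 3 0 rfl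
  have t2 := hmon 2 1 rfl
  have t3 := hmon 1 2 rfl
  have t4 := hmon 0 3 rfl
  rw [abs_le] at t1 t2 t3 t4 hτ ⊢
  have hY6 : 0 ≤ Y ^ 6 := by positivity
  constructor
  · nlinarith [t1.1, t2.2, t3.2, t4.2, hτ.2]
  · nlinarith [t1.2, t2.1, t3.1, t4.1, hτ.1]

theorem WC2_cnt (x : OO) (Y : ℝ) (h1 : |va x| ≤ Y) (h2 : |vb x| ≤ Y) : (cnt x : ℝ) ≤ Y := by
  by_cases hi : x.im = 0
  · have e : va x = x.re := by
      unfold va
      rw [hi]
      push_cast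
      ring
    have e2 : cnt x = x.re.natAbs := by
      unfold cnt
      rw [hi, Int.gcd_zero_right]
    rw [e2, Nat.cast_natAbs, Int.cast_abs, ← e]
    exact h1
  · have e : cnt x ≤ x.im.natAbs := Nat.le_of_dvd (Int.natAbs_pos.2 hi) (Int.gcd_dvd_natAbs_right _ _)
    have e' : (cnt x : ℝ) ≤ |(x.im : ℝ)| := by
      have h : (cnt x : ℝ) ≤ (x.im.natAbs : ℝ) := by exact_mod_cast e
      rwa [Nat.cast_natAbs, Int.cast_abs] at h
    have e3 : va x - vb x = x.im * √5 := by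
      unfold va vb
      ring
    have h3 : |(x.im : ℝ)| * √5 ≤ 2 * Y := by
      have e4 : |(x.im : ℝ)| * √5 = |va x - vb x| := by rw [e3, abs_mul, abs_of_nonneg (Real.sqrt_nonneg 5)]
      rw [e4]
      exact (abs_sub _ _).trans (by linarith)
    have h4 : |(x.im : ℝ)| * 2 ≤ |(x.im : ℝ)| * √5 := mul_le_mul_of_nonneg_left WC2_sqrt.1 (abs_nonneg _)
    linarith

/-- the number of all triples over one set of pairs -/
theorem WC2_count (hWC1 : WC1_stmt) (Q P : ℕ) (hQ : 1 ≤ Q) (hP : 1 ≤ P) (g : OO) (R D : ℝ) (hR : 0 ≤ R) (hD : 0 ≤ D)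
    (S : Finset (ℕ × OO × OO × OO))
    (hS : ∀ t ∈ S, P ≤ t.1 ∧ (3 : ℝ) ^ t.1.primeFactors.card ≤ D ∧ KK Q t.2.1 ∧ Nat.Coprime t.1 (5 * t.2.1.norm.natAbs) ∧
      (t.1 : OO) ∣ FF t.2.1 (g * t.2.2.1) t.2.2.2 ∧ R0 (g * t.2.2.1) t.2.2.2 ≠ 0 ∧
      ((R0 (g * t.2.2.1) t.2.2.2).natAbs.divisors.card : ℝ) ≤ R)
    (hk : ∀ t ∈ S, ∀ t₁ ∈ S, t.2.1 ∣ t₁.2.1 → t.2.1 = t₁.2.1) (E : Finset (OO × OO)) (hE : ∀ t ∈ S, t.2.2 ∈ E) :
    (S.card : ℝ) ≤ R * D * (E.card + 15 * Q / P * ∑ v ∈ E, ((if v.2 = 0 then cnt (g * v.1) else cnt v.2 : ℕ) : ℝ)) := by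
  classical
  have h1 : S.card = ∑ v ∈ E, (S.filter (fun t => t.2.2 = v)).card := card_eq_sum_card_fiberwise (fun t ht => hE t ht)
  have hP0 : (0 : ℝ) < P := by exact_mod_cast hP
  have h2 : ∀ v ∈ E, ((S.filter (fun t => t.2.2 = v)).card : ℝ) ≤
      R * D * (1 + 15 * Q / P * ((if v.2 = 0 then cnt (g * v.1) else cnt v.2 : ℕ) : ℝ)) := by
    intro v hv
    rcases (S.filter (fun t => t.2.2 = v)).eq_empty_or_nonempty with hem | ⟨t0, ht0⟩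
    · rw [hem, card_empty, Nat.cast_zero]
      positivity
    obtain ⟨ht0S, ht0v⟩ := mem_filter.1 ht0
    have h0 := hS t0 ht0S
    rw [ht0v] at h0
    have hinj : Set.InjOn (fun t : ℕ × OO × OO × OO => (t.1, t.2.1)) (S.filter (fun t => t.2.2 = v)) := by
      intro t ht t' ht' he
      have e1 := (mem_filter.1 ht).2
      have e2 := (mem_filter.1 ht').2
      have e3 := (Prod.mk.inj he).1
      have e4 := (Prod.mk.inj he).2
      exact Prod.ext e3 (Prod.ext e4 (e1.trans e2.symm))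
    have hc := hWC1 Q P (g * v.1) v.2 D ((S.filter (fun t => t.2.2 = v)).image (fun t => (t.1, t.2.1))) hQ hP hD h0.2.2.2.2.2.1
      (by
        intro t ht
        obtain ⟨t', ht', rfl⟩ := mem_image.1 ht
        obtain ⟨a1, a2⟩ := mem_filter.1 ht'
        have h := hS t' a1
        rw [a2] at h
        exact ⟨h.1, h.2.1, h.2.2.1, h.2.2.2.1, h.2.2.2.2.1⟩)
      (by
        intro t ht t₁ ht₁ hd
        obtain ⟨t', ht', rfl⟩ := mem_image.1 ht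
        obtain ⟨t₁', ht₁', rfl⟩ := mem_image.1 ht₁
        exact hk t' (mem_filter.1 ht').1 t₁' (mem_filter.1 ht₁').1 hd)
    rw [card_image_of_injOn hinj] at hc
    refine hc.trans ?_
    have e : (1 : ℝ) + 15 * Q * ((if v.2 = 0 then cnt (g * v.1) else cnt v.2 : ℕ) : ℝ) / P =
        1 + 15 * Q / P * ((if v.2 = 0 then cnt (g * v.1) else cnt v.2 : ℕ) : ℝ) := by ring
    rw [e, mul_assoc]
    exact mul_le_mul_of_nonneg_right h0.2.2.2.2.2.2 (by positivity)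
  rw [h1, Nat.cast_sum]
  refine (sum_le_sum h2).trans (le_of_eq ?_)
  rw [← mul_sum, sum_add_distrib, ← mul_sum, sum_const, nsmul_eq_mul, mul_one]

theorem WC2_proof (hWC1 : WC1_stmt) (hWBX : WBX_stmt) (hWGC : WGC_stmt) (hWVA : WVA_stmt) : WC2_stmt := by
  classical
  intro C₁ ε hC₁ hε
  obtain ⟨CB, hCB1, hCB⟩ := hWBX
  obtain ⟨CG, hCG1, hCG⟩ := hWGC
  obtain ⟨Ca, hCa1, hCa⟩ := helper3.FT.P6c_div (ε / 5) (by positivity) (5000 * (2 * C₁) ^ 6)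
    (by
      have h : (1 : ℝ) ≤ (2 * C₁) ^ 6 := one_le_pow₀ (by linarith)
      linarith) 12
  obtain ⟨Cb, hCb1, hCb⟩ := helper3.FT.P6c_div (ε / 5) (by positivity) 2 (by norm_num) 1
  set Cl : ℝ := 1 + Real.log C₁ + 2 / (ε / 5) with hCl
  have hlC : 0 ≤ Real.log C₁ := Real.log_nonneg hC₁
  have hCl0 : 1 ≤ Cl := by
    have h : 0 ≤ 2 / (ε / 5) := by positivity
    linarith
  refine ⟨Ca * Cb ^ 2 * (CB ^ 2 * C₁ ^ 4 + 15 * CB * C₁ ^ 2 * (2 * C₁ + CG * C₁ ^ 2 * Cl)), ?_, ?_⟩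
  · have q1 : (1 : ℝ) ≤ Ca * Cb ^ 2 := one_le_mul_of_one_le_of_one_le hCa1 (one_le_pow₀ hCb1)
    have q2 : (1 : ℝ) ≤ CB ^ 2 * C₁ ^ 4 := one_le_mul_of_one_le_of_one_le (one_le_pow₀ hCB1) (one_le_pow₀ hC₁)
    have q3 : 0 ≤ 15 * CB * C₁ ^ 2 * (2 * C₁ + CG * C₁ ^ 2 * Cl) := by positivity
    exact one_le_mul_of_one_le_of_one_le q1 (by linarith)
  intro T Q P G L g hQ hQT hP hPT hG hGT hL hLT hg hga hgb S hS hk
  have hT : 1 ≤ T := hQ.trans hQT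
  have hT' : (1 : ℝ) ≤ T := by exact_mod_cast hT
  have hP0 : (0 : ℝ) < P := by exact_mod_cast hP
  set t : ℝ := (T : ℝ) ^ (ε / 5) with ht
  have ht1 : 1 ≤ t := Real.one_le_rpow hT' (by positivity)
  have ht5 : (T : ℝ) ^ ε = t ^ 5 := by
    rw [ht, ← Real.rpow_natCast, ← Real.rpow_mul (by linarith)]
    congr 1
    push_cast
    ring
  have hGL : G * L ≤ (T : ℝ) ^ 2 := by
    rw [pow_two]
    exact mul_le_mul hGT hLT (by linarith) (by linarith)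
  have hGL1 : 1 ≤ G * L := one_le_mul_of_one_le_of_one_le hG hL
  have hX1 : 1 ≤ C₁ * L := one_le_mul_of_one_le_of_one_le hC₁ hL
  have hX2 : 1 ≤ C₁ * (G * L) := one_le_mul_of_one_le_of_one_le hC₁ hGL1
  have hge : ∀ s ∈ S, |va (g * s.2.2.1)| ≤ 2 * C₁ * (G * L) ∧ |vb (g * s.2.2.1)| ≤ 2 * C₁ * (G * L) := by
    intro s hs
    obtain ⟨-, -, -, -, b1, b2, -⟩ := hS s hs
    rw [hWVA.1, hWVA.2.1, abs_mul, abs_mul]
    have e : 2 * C₁ * (G * L) = 2 * G * (C₁ * L) := by ring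
    rw [e]
    exact ⟨mul_le_mul hga b1 (abs_nonneg _) (by linarith), mul_le_mul hgb b2 (abs_nonneg _) (by linarith)⟩
  have hYT : 2 * C₁ * (G * L) ≤ 2 * C₁ * (T : ℝ) ^ 2 := mul_le_mul_of_nonneg_left hGL (by linarith)
  have hR : ∀ s ∈ S, ((R0 (g * s.2.2.1) s.2.2.2).natAbs.divisors.card : ℝ) ≤ Ca * t := by
    intro s hs
    obtain ⟨-, -, -, -, -, -, b3, b4, -, b5⟩ := hS s hs
    obtain ⟨b1, b2⟩ := hge s hs
    refine hCa T hT _ (Int.natAbs_pos.2 b5) ?_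
    have hz : C₁ * (G * L) ≤ 2 * C₁ * (G * L) := by
      have : 0 ≤ C₁ * (G * L) := by linarith
      linarith
    have h := WC2_R0 hWVA (2 * C₁ * (T : ℝ) ^ 2) (g * s.2.2.1) s.2.2.2 (b1.trans hYT) (b2.trans hYT)
      (b3.trans (hz.trans hYT)) (b4.trans (hz.trans hYT))
    refine h.trans (le_of_eq ?_)
    ring
  have hD : ∀ s ∈ S, (3 : ℝ) ^ s.1.primeFactors.card ≤ (Cb * t) ^ 2 := by
    intro s hs
    obtain ⟨b1, b2, -⟩ := hS s hs
    have hpos : 0 < s.1 := by omega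
    refine (helper3.FT.P6c_three_pow s.1 hpos).trans (pow_le_pow_left₀ (by positivity) (hCb T hT s.1 hpos ?_) 2)
    have h3 : s.1 ≤ 2 * T := by omega
    have h4 : (s.1 : ℝ) ≤ 2 * T := by exact_mod_cast h3
    rwa [pow_one]
  -- the boxes
  set E₁ : Finset OO := S.image (fun s => s.2.2.1) with hE₁
  set E₂ : Finset OO := S.image (fun s => s.2.2.2) with hE₂
  have hbox1 : (E₁.card : ℝ) ≤ CB * (C₁ * L) ^ 2 := by
    refine hCB (C₁ * L) hX1 E₁ ?_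
    intro x hx
    obtain ⟨s, hs, rfl⟩ := mem_image.1 hx
    obtain ⟨-, -, -, -, b1, b2, -⟩ := hS s hs
    exact ⟨b1, b2⟩
  have hb2 : ∀ x ∈ E₂, |va x| ≤ C₁ * (G * L) ∧ |vb x| ≤ C₁ * (G * L) := by
    intro x hx
    obtain ⟨s, hs, rfl⟩ := mem_image.1 hx
    obtain ⟨-, -, -, -, -, -, b3, b4, -⟩ := hS s hs
    exact ⟨b3, b4⟩
  have hbox2 : (E₂.card : ℝ) ≤ CB * (C₁ * (G * L)) ^ 2 := hCB (C₁ * (G * L)) hX2 E₂ hb2
  have hlog : 1 + Real.log (C₁ * (G * L)) ≤ Cl * t := by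
    have e1 : Real.log (C₁ * (G * L)) ≤ Real.log C₁ + 2 * Real.log T := by
      rw [Real.log_mul (by linarith) (by linarith)]
      have h := Real.log_le_log (by linarith) hGL
      rw [Real.log_pow] at h
      push_cast at h
      linarith
    have e2 : Real.log T ≤ t / (ε / 5) := Real.log_le_rpow_div (by linarith) (by positivity)
    have e3 : 1 + Real.log (C₁ * (G * L)) ≤ (1 + Real.log C₁) * 1 + 2 / (ε / 5) * t := by
      have e4 : 2 * (t / (ε / 5)) = 2 / (ε / 5) * t := by ring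
      linarith
    refine e3.trans ?_
    rw [hCl]
    have e5 : (1 + Real.log C₁) * 1 ≤ (1 + Real.log C₁) * t := mul_le_mul_of_nonneg_left ht1 (by linarith)
    linarith
  have hgcd : ∑ z ∈ E₂.filter (fun z => z ≠ 0), (cnt z : ℝ) ≤ CG * (C₁ * (G * L)) ^ 2 * (Cl * t) := by
    refine (hCG (C₁ * (G * L)) hX2 _ ?_).trans ?_
    · intro x hx
      obtain ⟨a1, a2⟩ := mem_filter.1 hx
      exact ⟨a2, hb2 x a1⟩
    · exact mul_le_mul_of_nonneg_left hlog (by positivity)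
  have hin : ∀ e ∈ E₁, ∑ z ∈ E₂, ((if z = 0 then cnt (g * e) else cnt z : ℕ) : ℝ) ≤
      2 * C₁ * (G * L) + CG * (C₁ * (G * L)) ^ 2 * (Cl * t) := by
    intro e he
    obtain ⟨s, hs, rfl⟩ := mem_image.1 he
    have hc := WC2_cnt _ _ (hge s hs).1 (hge s hs).2
    have h1 : ∑ z ∈ E₂, ((if z = 0 then cnt (g * s.2.2.1) else cnt z : ℕ) : ℝ) =
        ∑ z ∈ E₂.filter (fun z => z = 0), (cnt (g * s.2.2.1) : ℝ) + ∑ z ∈ E₂.filter (fun z => z ≠ 0), (cnt z : ℝ) := by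
      rw [← sum_filter_add_sum_filter_not E₂ (fun z => z = 0)]
      congr 1
      · refine sum_congr rfl fun z hz => ?_
        rw [if_pos (mem_filter.1 hz).2]
      · refine sum_congr rfl fun z hz => ?_
        rw [if_neg (mem_filter.1 hz).2]
    rw [h1]
    refine add_le_add ?_ hgcd
    rw [sum_const, nsmul_eq_mul]
    have h2 : (E₂.filter (fun z => z = 0)).card ≤ 1 := by
      refine card_le_one.2 ?_
      intro a ha b hb
      rw [(mem_filter.1 ha).2, (mem_filter.1 hb).2]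
    have h3 : ((E₂.filter (fun z => z = 0)).card : ℝ) ≤ 1 := by exact_mod_cast h2
    calc _ ≤ (1 : ℝ) * (cnt (g * s.2.2.1) : ℝ) := mul_le_mul_of_nonneg_right h3 (by positivity)
      _ ≤ _ := by rw [one_mul]; exact hc
  have hmain := WC2_count hWC1 Q P hQ hP g (Ca * t) ((Cb * t) ^ 2) (by positivity) (by positivity) S
    (fun s hs => by
      obtain ⟨b1, -, b2, b3, -, -, -, -, b4, b5⟩ := hS s hs
      exact ⟨b1, hD s hs, b2, b3, b4, b5, hR s hs⟩) hk (E₁ ×ˢ E₂)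
    (fun s hs => mem_product.2 ⟨mem_image_of_mem _ hs, mem_image_of_mem _ hs⟩)
  rw [card_product, sum_product] at hmain
  have hsum : ∑ e ∈ E₁, ∑ z ∈ E₂, ((if z = 0 then cnt (g * e) else cnt z : ℕ) : ℝ) ≤
      CB * (C₁ * L) ^ 2 * (2 * C₁ * (G * L) + CG * (C₁ * (G * L)) ^ 2 * (Cl * t)) := by
    refine (sum_le_sum hin).trans ?_
    rw [sum_const, nsmul_eq_mul]
    exact mul_le_mul_of_nonneg_right hbox1 (by positivity)
  have hcard : ((E₁.card * E₂.card : ℕ) : ℝ) ≤ CB * (C₁ * L) ^ 2 * (CB * (C₁ * (G * L)) ^ 2) := by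
    push_cast
    exact mul_le_mul hbox1 hbox2 (by positivity) (by positivity)
  have hQP : 0 ≤ (Q : ℝ) / P := by positivity
  refine hmain.trans ?_
  rw [ht5]
  have s1 : CB * (C₁ * L) ^ 2 * (2 * C₁ * (G * L) + CG * (C₁ * (G * L)) ^ 2 * (Cl * t)) ≤
      CB * C₁ ^ 2 * (2 * C₁ + CG * C₁ ^ 2 * Cl) * t * (G ^ 2 * L ^ 4) := by
    have w1 : 2 * C₁ * (G * L) ≤ 2 * C₁ * (G * L) ^ 2 * t := by
      have w2 : G * L ≤ (G * L) ^ 2 * t := by
        have w3 : (G * L) * 1 ≤ (G * L) * ((G * L) * t) :=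
          mul_le_mul_of_nonneg_left (one_le_mul_of_one_le_of_one_le hGL1 ht1) (by linarith)
        linarith [w3, (by ring : (G * L) * ((G * L) * t) = (G * L) ^ 2 * t)]
      have w4 := mul_le_mul_of_nonneg_left w2 (by linarith : 0 ≤ 2 * C₁)
      linarith [w4, (by ring : 2 * C₁ * ((G * L) ^ 2 * t) = 2 * C₁ * (G * L) ^ 2 * t)]
    calc CB * (C₁ * L) ^ 2 * (2 * C₁ * (G * L) + CG * (C₁ * (G * L)) ^ 2 * (Cl * t))
        ≤ CB * (C₁ * L) ^ 2 * (2 * C₁ * (G * L) ^ 2 * t + CG * (C₁ * (G * L)) ^ 2 * (Cl * t)) :=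
          mul_le_mul_of_nonneg_left (by linarith) (by positivity)
      _ = _ := by ring
  have s2 : ((E₁.card * E₂.card : ℕ) : ℝ) + 15 * Q / P * ∑ e ∈ E₁, ∑ z ∈ E₂, ((if z = 0 then cnt (g * e) else cnt z : ℕ) : ℝ) ≤
      (CB ^ 2 * C₁ ^ 4 + 15 * CB * C₁ ^ 2 * (2 * C₁ + CG * C₁ ^ 2 * Cl)) * t * (G ^ 2 * L ^ 4) * (1 + Q / P) := by
    have u1 : 15 * (Q : ℝ) / P * ∑ e ∈ E₁, ∑ z ∈ E₂, ((if z = 0 then cnt (g * e) else cnt z : ℕ) : ℝ) ≤
        15 * (Q / P) * (CB * C₁ ^ 2 * (2 * C₁ + CG * C₁ ^ 2 * Cl) * t * (G ^ 2 * L ^ 4)) := by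
      rw [mul_div_assoc]
      exact mul_le_mul_of_nonneg_left (hsum.trans s1) (by positivity)
    have u2 : CB * (C₁ * L) ^ 2 * (CB * (C₁ * (G * L)) ^ 2) = CB ^ 2 * C₁ ^ 4 * (G ^ 2 * L ^ 4) := by ring
    rw [u2] at hcard
    have u3 : CB ^ 2 * C₁ ^ 4 * (G ^ 2 * L ^ 4) ≤ CB ^ 2 * C₁ ^ 4 * (G ^ 2 * L ^ 4) * t := by
      have := mul_le_mul_of_nonneg_left ht1 (by positivity : 0 ≤ CB ^ 2 * C₁ ^ 4 * (G ^ 2 * L ^ 4))
      linarith
    have u4 : 0 ≤ CB ^ 2 * C₁ ^ 4 * (G ^ 2 * L ^ 4) * t * (Q / P) := by positivity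
    have u5 : 0 ≤ 15 * CB * C₁ ^ 2 * (2 * C₁ + CG * C₁ ^ 2 * Cl) * t * (G ^ 2 * L ^ 4) := by positivity
    have u6 : (CB ^ 2 * C₁ ^ 4 + 15 * CB * C₁ ^ 2 * (2 * C₁ + CG * C₁ ^ 2 * Cl)) * t * (G ^ 2 * L ^ 4) * (1 + Q / P) =
        CB ^ 2 * C₁ ^ 4 * (G ^ 2 * L ^ 4) * t + CB ^ 2 * C₁ ^ 4 * (G ^ 2 * L ^ 4) * t * (Q / P) +
        15 * CB * C₁ ^ 2 * (2 * C₁ + CG * C₁ ^ 2 * Cl) * t * (G ^ 2 * L ^ 4) +
        15 * (Q / P) * (CB * C₁ ^ 2 * (2 * C₁ + CG * C₁ ^ 2 * Cl) * t * (G ^ 2 * L ^ 4)) := by ring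
    rw [u6]
    linarith
  calc _ ≤ Ca * t * (Cb * t) ^ 2 *
        ((CB ^ 2 * C₁ ^ 4 + 15 * CB * C₁ ^ 2 * (2 * C₁ + CG * C₁ ^ 2 * Cl)) * t * (G ^ 2 * L ^ 4) * (1 + Q / P)) :=
        mul_le_mul_of_nonneg_left s2 (by positivity)
    _ = Ca * Cb ^ 2 * (CB ^ 2 * C₁ ^ 4 + 15 * CB * C₁ ^ 2 * (2 * C₁ + CG * C₁ ^ 2 * Cl)) * t ^ 4 * (G ^ 2 * L ^ 4 * (1 + Q / P)) := by ring
    _ ≤ Ca * Cb ^ 2 * (CB ^ 2 * C₁ ^ 4 + 15 * CB * C₁ ^ 2 * (2 * C₁ + CG * C₁ ^ 2 * Cl)) * t ^ 5 * (G ^ 2 * L ^ 4 * (1 + Q / P)) := by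
        apply mul_le_mul_of_nonneg_right _ (by positivity)
        apply mul_le_mul_of_nonneg_left _ (by positivity)
        exact pow_le_pow_right₀ ht1 (by norm_num)

end Pool.Agent.RF
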